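import Pool.Agent.Q80.HK.L

/-!
# The quadratic combination of Mittag-Leffler functions has zeros (MP_aff8e8_an, Q1: disproved)
-/

set_option autoImplicit false

open Complex

namespace Pool.Agent.Results.MP_aff8e8_an.ZeroExists

/-- The Mittag-Leffler function `E_{α,β}(z) = ∑ z ^ k / Γ(α k + β)`. -/
noncomputable def mittagLeffler (α β : ℝ) (z : ℂ) : ℂ :=
  ∑' k : ℕ, z ^ k / Complex.Gamma (α * k + β)

/-- The point `i^{-α} t`, where `i^{-α} = e^{-iπα/2}`. -/
noncomputable def point (α t : ℝ) : ℂ := exp (-(I * Real.pi * α / 2)) * t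

/-- `ψ_α(t) = E_{α,1}(i^{-α} t)² - i^{-α} t E_{α,2}(i^{-α} t) E_{α,α}(i^{-α} t)` -/
noncomputable def psi (α t : ℝ) : ℂ :=
  mittagLeffler α 1 (point α t) ^ 2 -
    point α t * mittagLeffler α 2 (point α t) * mittagLeffler α α (point α t)

/-- The series converges for every `z` if `α, β > 0`. -/
theorem summable_mittagLeffler {α β : ℝ} (hα : 0 < α) (hβ : 0 < β) (z : ℂ) :
    Summable fun k : ℕ => z ^ k / Complex.Gamma (α * k + β) := by
  refine (Pool.Agent.Q80.HK.ML_summable hα hβ z).congr fun k => ?_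
  rw [← Complex.Gamma_ofReal]
  push_cast
  rfl

/-- There are `α ∈ (1, 2)` and `t > 0` with `ψ_α(t) = 0`; more precisely there are such
`α` in `[12/7, 1999/1000]` and `t ≥ 5389`. -/
theorem result : ∃ α t : ℝ, 1 < α ∧ α < 2 ∧ 0 < t ∧ 12 / 7 ≤ α ∧ α ≤ 1999 / 1000 ∧ 5389 ≤ t ∧
    psi α t = 0 := by
  obtain ⟨α, t, h1, h2, h3, h4⟩ := Pool.Agent.Q80.HK.exists_zero_psi
  refine ⟨α, t, by linarith, by linarith, by linarith, h1, h2, h3, ?_⟩
  rw [← h4]
  have e : point α t = Pool.Agent.Q80.HK.zz α t := by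
    unfold point Pool.Agent.Q80.HK.zz
    rw [mul_comm]
    congr 2
    push_cast
    ring
  have e2 : ∀ β : ℝ, mittagLeffler α β (point α t) =
      Pool.Agent.Q80.HK.ML α β (Pool.Agent.Q80.HK.zz α t) := by
    intro β
    unfold mittagLeffler Pool.Agent.Q80.HK.ML
    rw [e]
    congr 1
    funext k
    rw [← Complex.Gamma_ofReal]
    push_cast
    rfl
  unfold psi Pool.Agent.Q80.HK.psi
  rw [e2 1, e2 2, e2 α, e]

end Pool.Agent.Results.MP_aff8e8_an.ZeroExists
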